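import Pool.Agent.U514.TG.Stm
import Pool.Agent.U283.SP.BASE

/-!
Project TG, package BASEX: trilinear aggregation, with the number (from the theorems of
`Pool.Agent.U283.SP.BASE`).
-/

set_option autoImplicit false

namespace Pool.Agent.U810.TG.BASEX

open Finset
open Pool.Agent.U514.SP Pool.Agent.U514.TG Pool.Agent.U283.SP.BASE

theorem t_BASEX : S_BASEX := by
  intro F _
  refine ⟨fun τ x1 y1 => fa (E x1 y1) τ, fun τ y2 z2 => fb (E y2 z2) τ, fc, wt 16, isAlg,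
    ?_, ?_, ?_, ?_⟩
  · intro τ
    refine (Nat.cast_le.2 (nnz_a (F := F) τ)).trans ?_
    obtain ⟨b, ⟨i, j, k⟩ | ⟨i, k⟩ | ⟨j, k⟩ | ⟨i, j⟩⟩ := τ <;>
      simp only [wt, na, nb, Fintype.card_fin] <;> norm_num
  · intro τ
    refine (Nat.cast_le.2 (nnz_b (F := F) τ)).trans ?_
    obtain ⟨b, ⟨i, j, k⟩ | ⟨i, k⟩ | ⟨j, k⟩ | ⟨i, j⟩⟩ := τ <;>
      simp only [wt, na, nb, Fintype.card_fin] <;> norm_num
  · intro τ
    obtain ⟨b, ⟨i, j, k⟩ | ⟨i, k⟩ | ⟨j, k⟩ | ⟨i, j⟩⟩ := τ <;>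
      simp only [wt] <;> norm_num
  · have h := sum_wt (I := Fin 128) 16
    rw [Fintype.card_fin] at h
    have h2 : ∑ τ : T₀, wt (I := Fin 128) 16 τ = 14745600 := by
      rw [show (∑ τ : T₀, wt (I := Fin 128) 16 τ) = ∑ τ : TT (Fin 128), wt 16 τ from rfl, h]
      norm_num
    exact h2.le

end Pool.Agent.U810.TG.BASEX
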